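import Mathlib

/-!
# The range of the number of rows: a necessary condition
-/

set_option autoImplicit false

namespace Pool.Agent.H248.ZP

theorem necessary (s t : ℕ) (hs : 2 ≤ s) (ht : 1 ≤ t) (c : ℝ) (hc : 0 < c) :
    ∃ (C : ℝ) (n₀ : ℕ), ∀ m n : ℕ, n₀ ≤ n → ∀ e : ℝ,
      e ≤ 2 * (s : ℝ) * n * (m : ℝ) ^ (1 - 1 / (t : ℝ)) + 2 * t * m →
      c * m * (n : ℝ) ^ (1 - 1 / (s : ℝ)) ≤ e →
      (m : ℝ) ≤ C * (n : ℝ) ^ ((t : ℝ) / s) := by
  have hsR : (2 : ℝ) ≤ s := by exact_mod_cast hs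
  have htR : (1 : ℝ) ≤ t := by exact_mod_cast ht
  have hα : (0 : ℝ) < 1 - 1 / (s : ℝ) := by
    have : 1 / (s : ℝ) ≤ 1 / 2 := one_div_le_one_div_of_le (by norm_num) hsR
    linarith
  have hlim : Filter.Tendsto (fun n : ℕ => (n : ℝ) ^ (1 - 1 / (s : ℝ))) Filter.atTop Filter.atTop :=
    (tendsto_rpow_atTop hα).comp tendsto_natCast_atTop_atTop
  obtain ⟨n₀, hn₀⟩ := Filter.eventually_atTop.1 (hlim.eventually_ge_atTop (4 * t / c))
  refine ⟨(4 * s / c) ^ t, max n₀ 1, fun m n hn e h1 h2 => ?_⟩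
  have hn1 : (1 : ℝ) ≤ n := by exact_mod_cast (le_max_right _ _).trans hn
  have hn0 : (0 : ℝ) < n := by linarith
  have hbig : 4 * (t : ℝ) ≤ c * (n : ℝ) ^ (1 - 1 / (s : ℝ)) := by
    have := hn₀ n ((le_max_left _ _).trans hn)
    rw [div_le_iff₀ hc] at this
    linarith
  rcases Nat.eq_zero_or_pos m with rfl | hm
  · simp only [Nat.cast_zero]
    positivity
  have hm0 : (0 : ℝ) < m := by exact_mod_cast hm
  have hNpos : 0 < (n : ℝ) ^ (1 / (s : ℝ)) := Real.rpow_pos_of_pos hn0 _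
  have hMpos : 0 < (m : ℝ) ^ (1 / (t : ℝ)) := Real.rpow_pos_of_pos hm0 _
  have hAn : (n : ℝ) ^ (1 - 1 / (s : ℝ)) = n / (n : ℝ) ^ (1 / (s : ℝ)) := by
    rw [Real.rpow_sub hn0, Real.rpow_one]
  have hAm : (m : ℝ) ^ (1 - 1 / (t : ℝ)) = m / (m : ℝ) ^ (1 / (t : ℝ)) := by
    rw [Real.rpow_sub hm0, Real.rpow_one]
  have hMt : ((m : ℝ) ^ (1 / (t : ℝ))) ^ t = m := by
    rw [one_div]
    exact Real.rpow_inv_natCast_pow hm0.le (by omega)
  have hNt : ((n : ℝ) ^ (1 / (s : ℝ))) ^ t = (n : ℝ) ^ ((t : ℝ) / s) := by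
    rw [← Real.rpow_natCast, ← Real.rpow_mul hn0.le]
    congr 1
    ring
  set N : ℝ := (n : ℝ) ^ (1 / (s : ℝ)) with hN
  set M : ℝ := (m : ℝ) ^ (1 / (t : ℝ)) with hM
  have h3 : c * m * (n / N) ≤ 2 * (s : ℝ) * n * (m / M) + 2 * t * m := by
    rw [← hAn, ← hAm]
    exact h2.trans h1
  have h4 : 2 * (t : ℝ) * m ≤ c * m * (n / N) / 2 := by
    rw [hAn] at hbig
    nlinarith
  have h5 : c * m * (n / N) / 2 ≤ 2 * (s : ℝ) * n * (m / M) := by linarith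
  have h6 : M ≤ 4 * s / c * N := by
    rw [div_mul_eq_mul_div, le_div_iff₀ hc]
    have e1 : c * m * (n / N) / 2 = (m * n / (2 * N * M)) * (c * M) := by
      field_simp
    have e2 : 2 * (s : ℝ) * n * (m / M) = (m * n / (2 * N * M)) * (4 * s * N) := by
      field_simp
      ring
    rw [e1, e2] at h5
    have := le_of_mul_le_mul_left h5 (by positivity)
    linarith
  calc (m : ℝ) = M ^ t := hMt.symm
    _ ≤ (4 * s / c * N) ^ t := pow_le_pow_left₀ hMpos.le h6 t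
    _ = (4 * s / c) ^ t * (n : ℝ) ^ ((t : ℝ) / s) := by rw [mul_pow, hNt]

end Pool.Agent.H248.ZP
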