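import Mathlib

/-!
# From set systems to matrices
-/

set_option autoImplicit false

namespace Pool.Agent.H248.ZP

theorem transfer {V W : Type} [Fintype V] [Fintype W] [DecidableEq V] [DecidableEq W]
    (D : V → Finset W) (s t m n d : ℕ) (ht : 1 ≤ t) (hs : 1 ≤ s) (hW : Fintype.card W ≤ n)
    (hd : ∀ v, d ≤ (D v).card)
    (hno : ∀ A : Finset V, A.card = s →
      (Finset.univ.filter fun w : W => ∀ v ∈ A, w ∈ D v).card < t) :
    ∃ E : Finset (Fin m × Fin n),
      (∀ (A : Finset (Fin m)) (B : Finset (Fin n)), A.card = s → B.card = t →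
        ∃ a ∈ A, ∃ b ∈ B, (a, b) ∉ E) ∧
      min m (Fintype.card V) * d ≤ E.card := by
  classical
  obtain ⟨e⟩ : Nonempty (W ↪ Fin n) := by
    rw [Function.Embedding.nonempty_iff_card_le, Fintype.card_fin]
    exact hW
  let eV := Fintype.equivFin V
  let g : Fin m → Option V := fun a =>
    if h : (a : ℕ) < Fintype.card V then some (eV.symm ⟨a, h⟩) else none
  have ginj : ∀ a b : Fin m, ∀ v : V, g a = some v → g b = some v → a = b := by
    intro a b v ha hb
    simp only [g] at ha hb
    split_ifs at ha with h1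
    split_ifs at hb with h2
    have h3 : eV.symm ⟨a, h1⟩ = eV.symm ⟨b, h2⟩ :=
      (Option.some.inj ha).trans (Option.some.inj hb).symm
    have h4 := eV.symm.injective h3
    exact Fin.ext (congrArg (fun z : Fin (Fintype.card V) => (z : ℕ)) h4)
  let E : Finset (Fin m × Fin n) :=
    Finset.univ.filter fun p => ∃ v, g p.1 = some v ∧ ∃ w ∈ D v, e w = p.2
  refine ⟨E, ?_, ?_⟩
  · intro A B hA hB
    by_contra hcon
    push Not at hcon
    have hmem : ∀ a ∈ A, ∀ b ∈ B, ∃ v, g a = some v ∧ ∃ w ∈ D v, e w = b := by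
      intro a ha b hb
      have := hcon a ha b hb
      exact (Finset.mem_filter.mp this).2
    have hBne : B.Nonempty := Finset.card_pos.mp (by omega)
    have hAne : A.Nonempty := Finset.card_pos.mp (by omega)
    obtain ⟨b0, hb0⟩ := hBne
    obtain ⟨a0, ha0⟩ := hAne
    have hval : ∀ a : Fin m, ∃ v : V, a ∈ A → g a = some v := by
      intro a
      by_cases ha : a ∈ A
      · obtain ⟨v, hv, _⟩ := hmem a ha b0 hb0
        exact ⟨v, fun _ => hv⟩
      · obtain ⟨v, _, _⟩ := hmem a0 ha0 b0 hb0
        exact ⟨v, fun h => absurd h ha⟩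
    choose f hf using hval
    have hcardA' : (A.image f).card = s := by
      rw [Finset.card_image_of_injOn, hA]
      intro a ha b hb hab
      have h1 := hf a ha
      have h2 := hf b hb
      rw [← hab] at h2
      exact ginj a b _ h1 h2
    have hlt := hno (A.image f) hcardA'
    have hle : B.card ≤
        (Finset.univ.filter fun w : W => ∀ v ∈ A.image f, w ∈ D v).card := by
      rw [← Finset.card_map e]
      apply Finset.card_le_card
      intro b hb
      obtain ⟨v0, _, w, _, hwb⟩ := hmem a0 ha0 b hb
      refine Finset.mem_map.mpr ⟨w, Finset.mem_filter.mpr ⟨Finset.mem_univ _, ?_⟩, hwb⟩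
      intro v hv
      obtain ⟨a, ha, rfl⟩ := Finset.mem_image.mp hv
      obtain ⟨v1, hv1, w1, hw1, hwb1⟩ := hmem a ha b hb
      have h1 : v1 = f a := Option.some.inj (hv1.symm.trans (hf a ha))
      have h2 : w1 = w := e.injective (hwb1.trans hwb.symm)
      rw [← h1, ← h2]
      exact hw1
    omega
  · -- counting
    let k := min m (Fintype.card V)
    have hkm : k ≤ m := min_le_left _ _
    have hkV : k ≤ Fintype.card V := min_le_right _ _
    let row : Fin k → Fin m := fun i => ⟨i, lt_of_lt_of_le i.2 hkm⟩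
    let vr : Fin k → V := fun i => eV.symm ⟨i, lt_of_lt_of_le i.2 hkV⟩
    have hgrow : ∀ i : Fin k, g (row i) = some (vr i) := by
      intro i
      simp only [g, row, vr]
      rw [dif_pos (lt_of_lt_of_le i.2 hkV)]
    have hrowinj : Function.Injective row := by
      intro i j hij
      exact Fin.ext (congrArg (fun z : Fin m => (z : ℕ)) hij)
    let S : Fin k → Finset (Fin m × Fin n) := fun i =>
      (D (vr i)).map ⟨fun w => (row i, e w), fun w w' h => e.injective (Prod.ext_iff.mp h).2⟩
    have hS : (Finset.univ.biUnion S) ⊆ E := by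
      intro p hp
      obtain ⟨i, _, hi⟩ := Finset.mem_biUnion.mp hp
      obtain ⟨w, hw, rfl⟩ := Finset.mem_map.mp hi
      exact Finset.mem_filter.mpr ⟨Finset.mem_univ _, vr i, hgrow i, w, hw, rfl⟩
    have hdisj : ∀ i ∈ (Finset.univ : Finset (Fin k)), ∀ j ∈ (Finset.univ : Finset (Fin k)),
        i ≠ j → Disjoint (S i) (S j) := by
      intro i _ j _ hij
      rw [Finset.disjoint_left]
      intro p hp hq
      obtain ⟨w, _, rfl⟩ := Finset.mem_map.mp hp
      obtain ⟨w', _, h'⟩ := Finset.mem_map.mp hq
      exact hij (hrowinj (Prod.ext_iff.mp h').1).symm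
    calc min m (Fintype.card V) * d = ∑ _i : Fin k, d := by
          rw [Finset.sum_const, Finset.card_univ, Fintype.card_fin, smul_eq_mul]
      _ ≤ ∑ i : Fin k, (S i).card := by
          apply Finset.sum_le_sum
          intro i _
          rw [Finset.card_map]
          exact hd _
      _ = (Finset.univ.biUnion S).card := (Finset.card_biUnion hdisj).symm
      _ ≤ E.card := Finset.card_le_card hS

end Pool.Agent.H248.ZP
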