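import Mathlib

/-!
# The bound of Kővári, Sós and Turán for `m × n` matrices
-/

set_option autoImplicit false

namespace Pool.Agent.H248.ZP

open Finset in
theorem upper_count (s t : ℕ) (ht : 1 ≤ t) (m n : ℕ)
    (E : Finset (Fin m × Fin n))
    (hE : ∀ (A : Finset (Fin m)) (B : Finset (Fin n)), A.card = s → B.card = t →
      ∃ a ∈ A, ∃ b ∈ B, (a, b) ∉ E) :
    ∑ b : Fin n, ((univ.filter (fun a : Fin m => (a, b) ∈ E)).card).choose s ≤ t * m.choose s := by
  have h1 : ∀ b : Fin n, ((univ.filter (fun a : Fin m => (a, b) ∈ E)).card).choose s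
      = ∑ A ∈ powersetCard s (univ : Finset (Fin m)), if ∀ a ∈ A, (a, b) ∈ E then 1 else 0 := by
    intro b
    rw [← card_powersetCard, ← card_filter]
    congr 1
    ext A
    rw [mem_powersetCard, mem_filter, mem_powersetCard]
    constructor
    · rintro ⟨h2, h3⟩
      exact ⟨⟨subset_univ _, h3⟩, fun a ha => (mem_filter.1 (h2 ha)).2⟩
    · rintro ⟨⟨_, h3⟩, h4⟩
      exact ⟨fun a ha => mem_filter.2 ⟨mem_univ _, h4 a ha⟩, h3⟩
  rw [sum_congr rfl (fun b _ => h1 b), sum_comm]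
  have h2 : ∀ A ∈ powersetCard s (univ : Finset (Fin m)),
      (∑ b : Fin n, if ∀ a ∈ A, (a, b) ∈ E then 1 else 0) ≤ t := by
    intro A hA
    rw [← card_filter]
    by_contra hcon
    push Not at hcon
    obtain ⟨B, hB, hBt⟩ := exists_subset_card_eq hcon.le
    obtain ⟨a, ha, b, hb, hab⟩ := hE A B (mem_powersetCard.1 hA).2 hBt
    exact hab ((mem_filter.1 (hB hb)).2 a ha)
  refine (sum_le_sum h2).trans ?_
  rw [sum_const, card_powersetCard, card_univ, Fintype.card_fin, smul_eq_mul, mul_comm]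

open Finset in
theorem upper (s t : ℕ) (hs : 1 ≤ s) (ht : 1 ≤ t) (m n : ℕ) (hn : 1 ≤ n)
    (E : Finset (Fin m × Fin n))
    (hE : ∀ (A : Finset (Fin m)) (B : Finset (Fin n)), A.card = s → B.card = t →
      ∃ a ∈ A, ∃ b ∈ B, (a, b) ∉ E) :
    (E.card : ℝ) ≤ (t : ℝ) ^ (1 / (s : ℝ)) * m * (n : ℝ) ^ (1 - 1 / (s : ℝ)) + s * n := by
  have hcount := upper_count s t ht m n E hE
  set d : Fin n → ℕ := fun b => (univ.filter (fun a : Fin m => (a, b) ∈ E)).card with hd
  have hEsum : E.card = ∑ b : Fin n, d b := by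
    rw [card_eq_sum_card_fiberwise (s := E) (f := fun p : Fin m × Fin n => p.2) (t := univ)
      (fun _ _ => mem_coe.2 (mem_univ _))]
    refine sum_congr rfl fun b _ => ?_
    refine card_bij (fun p _ => p.1) ?_ ?_ ?_
    · intro p hp
      rw [mem_filter] at hp ⊢
      refine ⟨mem_univ _, ?_⟩
      rw [← hp.2]
      exact hp.1
    · intro p hp q hq h
      rw [mem_filter] at hp hq
      exact Prod.ext h (hp.2.trans hq.2.symm)
    · intro a ha
      exact ⟨(a, b), mem_filter.2 ⟨(mem_filter.1 ha).2, rfl⟩, rfl⟩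
  -- powers
  have hpow : ∑ b : Fin n, (d b - s) ^ s ≤ t * m ^ s := by
    have h1 : ∀ b : Fin n, (d b - s) ^ s ≤ Nat.factorial s * (d b).choose s := by
      intro b
      rw [← Nat.descFactorial_eq_factorial_mul_choose]
      refine le_trans ?_ (Nat.pow_sub_le_descFactorial (d b) s)
      exact Nat.pow_le_pow_left (by omega) s
    calc ∑ b : Fin n, (d b - s) ^ s ≤ ∑ b : Fin n, Nat.factorial s * (d b).choose s :=
          sum_le_sum fun b _ => h1 b
      _ = Nat.factorial s * ∑ b : Fin n, (d b).choose s := by rw [mul_sum]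
      _ ≤ Nat.factorial s * (t * m.choose s) := Nat.mul_le_mul_left _ hcount
      _ = t * (Nat.factorial s * m.choose s) := by ring
      _ = t * m.descFactorial s := by rw [← Nat.descFactorial_eq_factorial_mul_choose]
      _ ≤ t * m ^ s := Nat.mul_le_mul_left _ (Nat.descFactorial_le_pow m s)
  obtain ⟨r, rfl⟩ : ∃ r, s = r + 1 := ⟨s - 1, by omega⟩
  set X : ℝ := ∑ b : Fin n, ((d b - (r + 1) : ℕ) : ℝ) with hX
  have hX0 : 0 ≤ X := sum_nonneg fun _ _ => Nat.cast_nonneg _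
  have hn0 : (0 : ℝ) < n := by exact_mod_cast hn
  have hmean : X ^ (r + 1) ≤ (n : ℝ) ^ r * (t * (m : ℝ) ^ (r + 1)) := by
    have h1 := pow_sum_div_card_le_sum_pow (s := (univ : Finset (Fin n)))
      (f := fun b => ((d b - (r + 1) : ℕ) : ℝ)) (fun _ _ => Nat.cast_nonneg _) r
    rw [card_univ, Fintype.card_fin] at h1
    have h2 : (∑ b : Fin n, (((d b - (r + 1) : ℕ) : ℝ)) ^ (r + 1)) ≤ t * (m : ℝ) ^ (r + 1) := by
      exact_mod_cast hpow
    have h3 := h1.trans h2
    rw [div_le_iff₀ (by positivity)] at h3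
    linarith
  set Y : ℝ := (t : ℝ) ^ (1 / ((r + 1 : ℕ) : ℝ)) * m * (n : ℝ) ^ (1 - 1 / ((r + 1 : ℕ) : ℝ)) with hY
  have hY0 : 0 ≤ Y := by positivity
  have hYp : (n : ℝ) ^ r * (t * (m : ℝ) ^ (r + 1)) ≤ Y ^ (r + 1) := by
    have h1 : ((n : ℝ) ^ (1 - 1 / ((r + 1 : ℕ) : ℝ))) ^ (r + 1) = (n : ℝ) ^ r := by
      rw [← Real.rpow_natCast, ← Real.rpow_mul hn0.le, ← Real.rpow_natCast]
      congr 1
      push_cast
      have : ((r : ℝ) + 1) ≠ 0 := by positivity
      field_simp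
      ring
    rw [hY, mul_pow, mul_pow, h1]
    have h2 : ((t : ℝ) ^ (1 / ((r + 1 : ℕ) : ℝ))) ^ (r + 1) = t := by
      rw [← Real.rpow_natCast, ← Real.rpow_mul (Nat.cast_nonneg t)]
      have : ((r + 1 : ℕ) : ℝ) ≠ 0 := by positivity
      rw [one_div, inv_mul_cancel₀ this, Real.rpow_one]
    rw [h2]
    exact le_of_eq (by ring)
  have hXY : X ≤ Y := le_of_pow_le_pow_left₀ (Nat.succ_ne_zero r) hY0 (hmean.trans hYp)
  have hEX : (E.card : ℝ) ≤ X + ((r + 1 : ℕ) : ℝ) * n := by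
    rw [hEsum, hX]
    push_cast
    have h1 : ∀ b ∈ (univ : Finset (Fin n)), (d b : ℝ) ≤ ((d b - (r + 1) : ℕ) : ℝ) + ((r : ℝ) + 1) := by
      intro b _
      have : d b ≤ (d b - (r + 1)) + (r + 1) := by omega
      exact_mod_cast this
    refine (sum_le_sum h1).trans ?_
    rw [sum_add_distrib, sum_const, card_univ, Fintype.card_fin, nsmul_eq_mul]
    linarith
  linarith

end Pool.Agent.H248.ZP
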