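import Mathlib

/-!
# Many pairwise coprime monic polynomials of degree `k` over a finite field

They are powers of the minimal polynomials of the elements of the extension of degree `k`.
-/

set_option autoImplicit false

namespace Pool.Agent.H248.ZP

open Polynomial

theorem exists_polys (K : Type) [Field K] [Fintype K] (k : ℕ) (hk : 1 ≤ k) :
    ∃ M : Finset (Polynomial K), Fintype.card K ^ k ≤ k * M.card ∧
      (∀ f ∈ M, f.Monic ∧ f.natDegree = k) ∧
      (∀ f ∈ M, ∀ g ∈ M, f ≠ g → IsCoprime f g) := by
  classical
  obtain ⟨p, hp⟩ := CharP.exists K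
  have : Fact p.Prime := ⟨CharP.char_is_prime K p⟩
  have : NeZero k := ⟨by omega⟩
  let L := FiniteField.Extension K p k
  let _ : Fintype L := Fintype.ofFinite L
  have hfr : Module.finrank K L = k := FiniteField.finrank_extension K p k
  have hcard : Fintype.card L = Fintype.card K ^ k := by
    rw [Fintype.card_eq_nat_card, Fintype.card_eq_nat_card]
    exact FiniteField.natCard_extension K p k
  have hint : ∀ θ : L, IsIntegral K θ := fun θ => Algebra.IsIntegral.isIntegral θ
  have hirr : ∀ θ : L, Irreducible (minpoly K θ) := fun θ => minpoly.irreducible (hint θ)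
  have hmon : ∀ θ : L, (minpoly K θ).Monic := fun θ => minpoly.monic (hint θ)
  have hdvd : ∀ θ : L, (minpoly K θ).natDegree ∣ k := by
    intro θ
    have h1 := minpoly.degree_dvd (hint θ)
    exact h1.trans (dvd_of_eq hfr)
  have hpos : ∀ θ : L, 0 < (minpoly K θ).natDegree := fun θ => minpoly.natDegree_pos (hint θ)
  set F : L → Polynomial K := fun θ => (minpoly K θ) ^ (k / (minpoly K θ).natDegree) with hF
  have hFm : ∀ θ, (F θ).Monic := fun θ => (hmon θ).pow _
  have hFd : ∀ θ, (F θ).natDegree = k := by
    intro θ
    rw [hF]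
    simp only
    rw [(hmon θ).natDegree_pow, Nat.div_mul_cancel (hdvd θ)]
  have hroot : ∀ θ : L, aeval θ (F θ) = 0 := by
    intro θ
    rw [hF]
    simp only
    rw [map_pow, minpoly.aeval, zero_pow]
    have h1 := Nat.div_mul_cancel (hdvd θ)
    intro h0
    rw [h0, zero_mul] at h1
    omega
  refine ⟨Finset.univ.image F, ?_, ?_, ?_⟩
  · rw [← hcard, ← Finset.card_univ]
    apply Finset.card_le_mul_card_image
    intro f hf
    obtain ⟨θ0, _, rfl⟩ := Finset.mem_image.1 hf
    have hne : (F θ0).map (algebraMap K L) ≠ 0 :=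
      Polynomial.map_ne_zero (hFm θ0).ne_zero
    calc (Finset.univ.filter fun a => F a = F θ0).card
        ≤ ((F θ0).map (algebraMap K L)).roots.toFinset.card := by
          apply Finset.card_le_card
          intro θ hθ
          rw [Finset.mem_filter] at hθ
          rw [Multiset.mem_toFinset, mem_roots hne, IsRoot.def, eval_map_algebraMap, ← hθ.2]
          exact hroot θ
      _ ≤ Multiset.card ((F θ0).map (algebraMap K L)).roots := Multiset.toFinset_card_le _
      _ ≤ ((F θ0).map (algebraMap K L)).natDegree := card_roots' _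
      _ = k := by rw [natDegree_map, hFd]
  · intro f hf
    obtain ⟨θ, _, rfl⟩ := Finset.mem_image.1 hf
    exact ⟨hFm θ, hFd θ⟩
  · intro f hf g hg hfg
    obtain ⟨θ, _, rfl⟩ := Finset.mem_image.1 hf
    obtain ⟨η, _, rfl⟩ := Finset.mem_image.1 hg
    have hne : minpoly K θ ≠ minpoly K η := by
      intro h
      apply hfg
      rw [hF]
      simp only
      rw [h]
    apply IsCoprime.pow
    rw [(hirr θ).coprime_iff_not_dvd]
    intro h
    apply hne
    exact eq_of_monic_of_associated (hmon θ) (hmon η)
      ((hirr θ).associated_of_dvd (hirr η) h)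

end Pool.Agent.H248.ZP
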