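import Pool.Agent.H248.ZP.Sol
import Pool.Agent.H248.ZP.Polys
import Pool.Graph.R_pool_sql_team_seeded_1acbe0a2.Y684.ZL.Fld

/-!
# Polynomial window norm graphs

Points are the pairs `(x, e)`, `x` in a field `K` with `q ^ r` elements, `e ≤ B`, `B = ⌊(q - 1) / h⌋`;
blocks are the pairs `(f, e')` with `f` in a family of pairwise coprime monic polynomials of degree
`k`, `e' < B`. They are incident if `N (f x) = g ^ (h (e + e') + w)` with `w < h`, `h e + w < q - 1`.
-/

set_option autoImplicit false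

namespace Pool.Agent.H248.ZP

open Finset Polynomial Pool.Agent.W834.NG Pool.Agent.Y684.ZL

/-- the nonzero norms are covered by `q - 1` consecutive powers -/
theorem cover {K : Type} [Field K] [Fintype K] [DecidableEq K] (φ : K →+* K) (g : K) (R m l : ℕ)
    (hm : 1 ≤ m) (hl : 2 ≤ l) (hcard : Fintype.card K = 2 ^ (m * l))
    (hR : R * (2 ^ l - 1) + 1 = 2 ^ (m * l))
    (hg : ∀ u v : ℕ, u < v → v < u + (2 ^ l - 1) → g ^ u ≠ g ^ v)
    (hN : ∀ i : ℕ, R ≤ (Finset.univ.filter fun z : K => Nm φ m z = g ^ i).card)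
    (y : K) (hy : y ≠ 0) (o : ℕ) : ∃ u < 2 ^ l - 1, Nm φ m y = g ^ (o + u) := by
  classical
  by_contra hcon
  push Not at hcon
  have hq : 4 ≤ 2 ^ l := by
    calc 4 = 2 ^ 2 := by norm_num
      _ ≤ 2 ^ l := Nat.pow_le_pow_right (by norm_num) hl
  have hg0 : g ≠ 0 := by
    intro h0
    apply hg 1 2 (by norm_num) (by omega)
    rw [h0]; simp
  have hN0 : Nm φ m (0 : K) = 0 := by
    unfold Nm
    exact Finset.prod_eq_zero (Finset.mem_univ (⟨0, hm⟩ : Fin m)) (iterate_map_zero φ _)
  set U := (Finset.range (2 ^ l - 1)).biUnion fun u =>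
    Finset.univ.filter fun z : K => Nm φ m z = g ^ (o + u) with hU
  have hUc : U.card = ∑ u ∈ Finset.range (2 ^ l - 1),
      (Finset.univ.filter fun z : K => Nm φ m z = g ^ (o + u)).card := by
    rw [hU, Finset.card_biUnion]
    intro u hu v hv huv
    show Disjoint (Finset.univ.filter fun z : K => Nm φ m z = g ^ (o + u))
      (Finset.univ.filter fun z : K => Nm φ m z = g ^ (o + v))
    rw [Finset.disjoint_left]
    intro z hz1 hz2
    rw [Finset.mem_filter] at hz1 hz2
    rw [Finset.mem_coe, Finset.mem_range] at hu hv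
    rcases lt_or_gt_of_ne huv with h1 | h1
    · exact hg (o + u) (o + v) (by omega) (by omega) (hz1.2.symm.trans hz2.2)
    · exact hg (o + v) (o + u) (by omega) (by omega) (hz2.2.symm.trans hz1.2)
  have h1 : R * (2 ^ l - 1) ≤ U.card := by
    rw [hUc]
    calc R * (2 ^ l - 1) = ∑ u ∈ Finset.range (2 ^ l - 1), R := by
          rw [Finset.sum_const, Finset.card_range, smul_eq_mul, mul_comm]
      _ ≤ _ := Finset.sum_le_sum fun u _ => hN _
  have h2 : U ⊆ (Finset.univ.erase y).erase 0 := by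
    intro z hz
    rw [hU, Finset.mem_biUnion] at hz
    obtain ⟨u, hu, hz⟩ := hz
    rw [Finset.mem_filter] at hz
    rw [Finset.mem_erase, Finset.mem_erase]
    refine ⟨?_, ?_, Finset.mem_univ _⟩
    · rintro rfl
      rw [hN0] at hz
      exact pow_ne_zero _ hg0 hz.2.symm
    · rintro rfl
      exact hcon u (Finset.mem_range.1 hu) hz.2
  have h3 := Finset.card_le_card h2
  rw [Finset.card_erase_of_mem (by simp [hy.symm]), Finset.card_erase_of_mem (Finset.mem_univ _),
    Finset.card_univ, hcard] at h3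
  have h4 : 1 ≤ l := by omega
  have h5 : 1 * 1 ≤ m * l := Nat.mul_le_mul hm h4
  have h6 : 2 ^ 1 ≤ 2 ^ (m * l) := Nat.pow_le_pow_right (by norm_num) (by omega)
  generalize R * (2 ^ l - 1) = W at h1 hR
  generalize 2 ^ (m * l) = W' at h3 hR h6
  omega

/-- the number of points with prescribed windows -/
theorem common_le {K : Type} [Field K] {r : ℕ} (hr : 1 ≤ r) (k : ℕ) (hk : 1 ≤ k) (h : ℕ)
    (hh : 1 ≤ h) (φ : K →+* K) (g : K)
    (f : Fin (r + 1) → K[X]) (hm : ∀ i, (f i).Monic) (hd : ∀ i, (f i).natDegree = k)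
    (hc : ∀ i j, i ≠ j → IsCoprime (f i) (f j)) (e' : Fin (r + 1) → ℕ) {B : ℕ}
    (P : Finset (K × Fin B)) (hinj : Set.InjOn Prod.fst (P : Set (K × Fin B)))
    (hP : ∀ p ∈ P, ∀ i, ∃ w < h, Nm φ r ((f i).eval p.1) = g ^ (h * (p.2 + e' i) + w)) :
    P.card ≤ (r.factorial * k ^ r) * (h ^ (r + 1) - (h - 1) ^ (r + 1)) := by
  classical
  choose w hw hN using fun (p : P) (i : Fin (r + 1)) => hP p.1 p.2 i
  have hmin : ∀ p, ∃ μ : ℕ, (∀ i, μ ≤ w p i) ∧ ∃ i, w p i = μ := by
    intro p
    obtain ⟨i, -, hi⟩ := Finset.exists_min_image Finset.univ (fun i => w p i) ⟨0, Finset.mem_univ _⟩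
    exact ⟨w p i, fun k => hi k (Finset.mem_univ _), i, rfl⟩
  choose μ hμ1 hμ2 using hmin
  let F : P → (Fin (r + 1) → ℕ) := fun p i => w p i - μ p
  have hFW : ∀ p, F p ∈ WW r h := by
    intro p
    refine mem_WW (fun i => lt_of_le_of_lt (Nat.sub_le _ _) (hw p i)) ?_
    obtain ⟨i, hi⟩ := hμ2 p
    exact ⟨i, by show w p i - μ p = 0; omega⟩
  have hfst : Function.Injective fun p : P => (p : K × Fin B).1 := by
    intro p p' hpp
    exact Subtype.ext (hinj p.2 p'.2 hpp)
  have hfib : ∀ v ∈ (Finset.univ : Finset P).image F,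
      ((Finset.univ : Finset P).filter (fun p => F p = v)).card ≤ r.factorial * k ^ r := by
    intro v _
    set J := (Finset.univ : Finset P).filter (fun p => F p = v) with hJ
    let b : K → K := fun s => if hs : ∃ p : P, (p : K × Fin B).1 = s then
      g ^ (h * ((hs.choose : K × Fin B).2 : ℕ) + μ hs.choose) else 0
    have hb : ∀ p : P, b (p : K × Fin B).1 = g ^ (h * ((p : K × Fin B).2 : ℕ) + μ p) := by
      intro p
      have hs : ∃ p' : P, (p' : K × Fin B).1 = (p : K × Fin B).1 := ⟨p, rfl⟩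
      have hcc : hs.choose = p := hfst hs.choose_spec
      simp only [b]
      rw [dif_pos hs, hcc]
    have := sol_bound hr k hk φ f hm hd hc (fun i => g ^ (h * e' i + v i)) b
      (J.image fun p : P => (p : K × Fin B).1) (by
        intro s hs i
        obtain ⟨p, hp, rfl⟩ := Finset.mem_image.1 hs
        have hpv : F p = v := (Finset.mem_filter.1 hp).2
        have h1 : ∏ j : Fin r, φ^[(j : ℕ)] ((f i).eval (p : K × Fin B).1) = _ := hN p i
        have h2 : v i + μ p = w p i := by
          rw [← hpv]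
          show w p i - μ p + μ p = _
          have := hμ1 p i
          omega
        rw [hb, h1, ← pow_add, ← h2]
        congr 1
        ring)
    rwa [Finset.card_image_of_injective _ hfst] at this
  have h1 := Finset.card_le_mul_card_image (Finset.univ : Finset P) (r.factorial * k ^ r) hfib
  have h2 : ((Finset.univ : Finset P).image F).card ≤ (WW r h).card :=
    Finset.card_le_card (Finset.image_subset_iff.2 fun j _ => hFW j)
  rw [WW_card r h hh] at h2
  rw [Finset.card_univ, Fintype.card_coe] at h1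
  exact h1.trans (Nat.mul_le_mul_left _ h2)

/-- the blocks and the points -/
theorem exists_family (r k l h : ℕ) (hr : 1 ≤ r) (hk : 1 ≤ k) (hl : 2 ≤ l) (hh : 1 ≤ h) :
    ∃ (V W : Type) (_ : Fintype V) (_ : Fintype W) (_ : DecidableEq V) (_ : DecidableEq W)
      (D : V → Finset W), Fintype.card W = 2 ^ (r * l) * ((2 ^ l - 1) / h + 1) ∧
      (2 ^ (r * l)) ^ k * ((2 ^ l - 1) / h) ≤ k * Fintype.card V ∧
      (∀ v, 2 ^ (r * l) ≤ (D v).card + k) ∧
      ∀ A : Finset V, A.card = r + 1 →
        (Finset.univ.filter fun w : W => ∀ v ∈ A, w ∈ D v).card ≤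
          (r.factorial * k ^ r) * (h ^ (r + 1) - (h - 1) ^ (r + 1)) := by
  classical
  obtain ⟨K, _, _, _, φ, g, R, hcard, hR, hg, hN⟩ := exists_field r l hr (by omega)
  obtain ⟨M, hM1, hM2, hM3⟩ := exists_polys K k hk
  set Q := 2 ^ l - 1 with hQ
  set B := Q / h with hB
  have hhB : h * B ≤ Q := Nat.mul_div_le _ _
  have hQB : Q < h * (B + 1) := Nat.lt_mul_div_succ Q (by omega)
  have hgB : ∀ u v : ℕ, u < v → v < u + h * B → g ^ u ≠ g ^ v := fun u v h1 h2 =>
    hg u v h1 (by omega)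
  let D : ({f // f ∈ M} × Fin B) → Finset (K × Fin (B + 1)) := fun v =>
    Finset.univ.filter fun p => ∃ w < h, h * p.2 + w < Q ∧
      Nm φ r (v.1.1.eval p.1) = g ^ (h * (p.2 + v.2) + w)
  have hD : ∀ v p, p ∈ D v ↔ ∃ w < h, h * (p.2 : ℕ) + w < Q ∧
      Nm φ r (v.1.1.eval p.1) = g ^ (h * ((p.2 : ℕ) + v.2) + w) := by
    intro v p
    simp only [D, Finset.mem_filter, Finset.mem_univ, true_and]
  refine ⟨{f // f ∈ M} × Fin B, K × Fin (B + 1), inferInstance, inferInstance, inferInstance,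
    inferInstance, D, ?_, ?_, ?_, ?_⟩
  · rw [Fintype.card_prod, hcard, Fintype.card_fin]
  · rw [Fintype.card_prod, Fintype.card_fin, Fintype.card_coe, ← mul_assoc, ← hcard]
    exact Nat.mul_le_mul_right _ hM1
  · rintro ⟨⟨f, hf⟩, e'⟩
    obtain ⟨hfm, hfd⟩ := hM2 f hf
    have h1 : (Finset.univ : Finset K) ⊆ (D (⟨f, hf⟩, e')).image Prod.fst ∪ f.roots.toFinset := by
      intro x _
      rw [Finset.mem_union]
      by_cases hx : f.eval x = 0
      · right
        rw [Multiset.mem_toFinset, mem_roots hfm.ne_zero]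
        exact hx
      · left
        obtain ⟨u, hu, hNu⟩ := cover φ g R r l hr hl hcard hR hg hN (f.eval x) hx (h * e')
        have h2 : u / h < B + 1 := by
          rw [Nat.div_lt_iff_lt_mul (by omega), mul_comm]
          omega
        rw [Finset.mem_image]
        refine ⟨(x, ⟨u / h, h2⟩), (hD _ _).2 ⟨u % h, Nat.mod_lt _ (by omega), ?_, ?_⟩, rfl⟩
        · show h * (u / h) + u % h < Q
          rw [Nat.div_add_mod]
          exact hu
        · show Nm φ r (f.eval x) = g ^ (h * (u / h + e') + u % h)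
          rw [hNu]
          congr 1
          have h3 := Nat.div_add_mod u h
          have h4 : h * (u / h + e') = h * (u / h) + h * e' := by ring
          omega
    have h2 := Finset.card_le_card h1
    rw [Finset.card_univ, hcard] at h2
    refine h2.trans ((Finset.card_union_le _ _).trans ?_)
    refine Nat.add_le_add Finset.card_image_le ?_
    exact (Multiset.toFinset_card_le _).trans ((card_roots' f).trans hfd.le)
  · intro A hA
    set P := Finset.univ.filter fun w : K × Fin (B + 1) => ∀ v ∈ A, w ∈ D v with hP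
    rcases Finset.eq_empty_or_nonempty P with hP0 | ⟨p₀, hp₀⟩
    · rw [hP0, Finset.card_empty]; exact Nat.zero_le _
    let en : Fin (r + 1) ≃ A := (Finset.equivFinOfCardEq hA).symm
    have hmem : ∀ p ∈ P, ∀ i, p ∈ D (en i : {f // f ∈ M} × Fin B) := by
      intro p hp i
      exact (Finset.mem_filter.1 hp).2 _ (en i).2
    refine common_le hr k hk h hh φ g (fun i => (en i : {f // f ∈ M} × Fin B).1.1)
      (fun i => (hM2 _ (en i : {f // f ∈ M} × Fin B).1.2).1)
      (fun i => (hM2 _ (en i : {f // f ∈ M} × Fin B).1.2).2) (fun i j hij => ?_)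
      (fun i => ((en i : {f // f ∈ M} × Fin B).2 : ℕ)) P ?_ ?_
    · refine hM3 _ (en i : {f // f ∈ M} × Fin B).1.2 _ (en j : {f // f ∈ M} × Fin B).1.2 ?_
      intro hff
      obtain ⟨w, hw, -, h1⟩ := (hD _ _).1 (hmem p₀ hp₀ i)
      obtain ⟨w', hw', -, h2⟩ := (hD _ _).1 (hmem p₀ hp₀ j)
      rw [hff, h2] at h1
      rw [add_comm (p₀.2 : ℕ), add_comm (p₀.2 : ℕ)] at h1
      rcases lt_trichotomy ((en i : {f // f ∈ M} × Fin B).2 : ℕ)
        ((en j : {f // f ∈ M} × Fin B).2 : ℕ) with hlt | heq | hgt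
      · exact win_ne g h B hgB (en j : {f // f ∈ M} × Fin B).2.2 hlt hw hw' h1.symm
      · apply hij
        apply en.injective
        apply Subtype.ext
        exact Prod.ext (Subtype.ext hff) (Fin.ext heq)
      · exact win_ne g h B hgB (en i : {f // f ∈ M} × Fin B).2.2 hgt hw' hw h1
    · intro p hp p' hp' hpp
      obtain ⟨w, hw, hwQ, h1⟩ := (hD _ _).1 (hmem p hp 0)
      obtain ⟨w', hw', hwQ', h2⟩ := (hD _ _).1 (hmem p' hp' 0)
      rw [hpp, h2] at h1
      have key : ∀ a b u v : ℕ, u < h → h * a + u < Q → h * b + v < Q → a < b →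
          g ^ (h * (a + ((en 0 : {f // f ∈ M} × Fin B).2 : ℕ)) + u) ≠
          g ^ (h * (b + ((en 0 : {f // f ∈ M} × Fin B).2 : ℕ)) + v) := by
        intro a b u v hu h3 h4 hab
        have h5 : h * (a + 1) ≤ h * b := Nat.mul_le_mul_left _ hab
        rw [mul_add, mul_one] at h5
        apply hg
        · rw [mul_add, mul_add]; omega
        · rw [mul_add, mul_add]; omega
      rcases lt_trichotomy (p.2 : ℕ) (p'.2 : ℕ) with hlt | heq | hgt
      · exact absurd h1.symm (key _ _ _ _ hw hwQ hwQ' hlt)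
      · exact Prod.ext hpp (Fin.ext heq)
      · exact absurd h1 (key _ _ _ _ hw' hwQ' hwQ hgt)
    · intro p hp i
      obtain ⟨w, hw, -, h1⟩ := (hD _ _).1 (hmem p hp i)
      exact ⟨w, hw, h1⟩

end Pool.Agent.H248.ZP
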