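import Mathlib

/-!
# Systems of norm equations for polynomials of degree `k`

`P K X a` is the span of the monomials in `X 0, …, X (t - 1)` with exponent at most `a j` of `X j`.
The key lemma `key`: if `t + 1` products `∏ j, f i j (X j)` of monic polynomials of degree `k` in one
variable are given such that for each `j` the polynomials `f i j` are pairwise coprime, and
`a j ≥ (j + 2) k - 1`, then the multiples of the products fill `P K X a`.
-/

set_option autoImplicit false

namespace Pool.Agent.H248.ZP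

open Finset Module Polynomial

/-- bounded partial fractions -/
theorem pf {K : Type*} [Field K] {I : Type*} [DecidableEq I] (T : Finset I) (f : I → K[X])
    (k t : ℕ) (hk : 1 ≤ k) (hT : T.card = t + 2) (hm : ∀ i ∈ T, (f i).Monic)
    (hd : ∀ i ∈ T, (f i).natDegree = k)
    (hc : ∀ i ∈ T, ∀ j ∈ T, i ≠ j → IsCoprime (f i) (f j)) (A : ℕ) (hA : (t + 2) * k ≤ A + 1)
    (h : K[X]) (hh : h.natDegree ≤ A) :
    ∃ c : I → K[X], (∀ i ∈ T, (c i).natDegree ≤ A - (t + 1) * k) ∧
      h = ∑ i ∈ T, c i * ∏ j ∈ T.erase i, f j := by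
  obtain ⟨q, r, hr, hf⟩ := eq_quo_mul_prod_add_sum_rem_mul_prod h hm
    (fun i hi j hj hne => hc i hi j hj hne)
  have hkt : (t + 1) * k + k = (t + 2) * k := by ring
  have hrd : ∀ i ∈ T, (r i).natDegree ≤ k - 1 := by
    intro i hi
    by_cases h0 : r i = 0
    · rw [h0, natDegree_zero]; exact Nat.zero_le _
    · have := natDegree_lt_natDegree h0 (hr i hi)
      rw [hd i hi] at this
      omega
  have hprod : ∀ i ∈ T, (∏ j ∈ T.erase i, f j).natDegree ≤ (t + 1) * k := by
    intro i hi
    refine (natDegree_prod_le _ _).trans ?_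
    rw [Finset.sum_congr rfl (g := fun _ => k) fun j hj => hd j (Finset.mem_of_mem_erase hj)]
    rw [Finset.sum_const, Finset.card_erase_of_mem hi, hT]
    simp
  have hS : (∑ i ∈ T, r i * ∏ j ∈ T.erase i, f j).natDegree ≤ A := by
    refine natDegree_sum_le_of_forall_le _ _ fun i hi => ?_
    refine natDegree_mul_le.trans ?_
    have h1 := hrd i hi
    have h2 := hprod i hi
    omega
  have hpm : (∏ i ∈ T, f i).Monic := monic_prod_of_monic _ _ hm
  have hpd : (∏ i ∈ T, f i).natDegree = (t + 2) * k := by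
    rw [natDegree_prod_of_monic _ _ hm, Finset.sum_congr rfl hd, Finset.sum_const, hT]
    simp
  have hq : q ≠ 0 → q.natDegree + (t + 2) * k ≤ A := by
    intro hq0
    have h1 : (q * ∏ i ∈ T, f i).natDegree ≤ A := by
      have e : q * ∏ i ∈ T, f i = h - ∑ i ∈ T, r i * ∏ j ∈ T.erase i, f j := by
        rw [eq_sub_iff_add_eq]; exact hf.symm
      rw [e]
      exact (natDegree_sub_le _ _).trans (max_le hh hS)
    rwa [natDegree_mul hq0 hpm.ne_zero, hpd] at h1
  obtain ⟨i₀, hi₀⟩ : T.Nonempty := Finset.card_pos.1 (by omega)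
  refine ⟨fun i => r i + if i = i₀ then q * f i₀ else 0, fun i hi => ?_, ?_⟩
  · refine (natDegree_add_le _ _).trans (max_le ?_ ?_)
    · have := hrd i hi
      omega
    · split_ifs with h1
      · by_cases hq0 : q = 0
        · rw [hq0, zero_mul, natDegree_zero]; exact Nat.zero_le _
        · have h2 := hq hq0
          refine natDegree_mul_le.trans ?_
          rw [hd i₀ hi₀]
          omega
      · rw [natDegree_zero]; exact Nat.zero_le _
  · have e1 : ∑ i ∈ T, (r i + if i = i₀ then q * f i₀ else 0) * ∏ j ∈ T.erase i, f j =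
        (∑ i ∈ T, r i * ∏ j ∈ T.erase i, f j) +
          ∑ i ∈ T, (if i = i₀ then q * f i₀ else 0) * ∏ j ∈ T.erase i, f j := by
      rw [← Finset.sum_add_distrib]
      exact Finset.sum_congr rfl fun i _ => add_mul _ _ _
    have e2 : ∑ i ∈ T, (if i = i₀ then q * f i₀ else 0) * ∏ j ∈ T.erase i, f j =
        q * ∏ i ∈ T, f i := by
      rw [Finset.sum_eq_single i₀]
      · rw [if_pos rfl, mul_assoc, Finset.mul_prod_erase T f hi₀]
      · intro j _ hj
        rw [if_neg hj, zero_mul]
      · intro h; exact absurd hi₀ h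
    rw [e1, e2, add_comm]
    exact hf

variable (K : Type*) {A I : Type*} [Field K] [CommRing A] [Algebra K A] [DecidableEq I]

/-- the span of the monomials with exponents at most `a j` -/
def P {t : ℕ} (X : Fin t → A) (a : Fin t → ℕ) : Submodule K A :=
  Submodule.span K {f | ∃ s : Fin t → ℕ, (∀ j, s j ≤ a j) ∧ f = ∏ j, X j ^ s j}

variable {K}

theorem mon_mem {t : ℕ} {X : Fin t → A} {a : Fin t → ℕ} (s : Fin t → ℕ) (h : ∀ j, s j ≤ a j) :
    ∏ j, X j ^ s j ∈ P K X a :=
  Submodule.subset_span ⟨s, h, rfl⟩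

theorem mul_mem {t : ℕ} {X : Fin (t + 1) → A} {b : Fin (t + 1) → ℕ} {u : A}
    (hu : u ∈ P K (fun j : Fin t => X j.castSucc) (fun j => b j.castSucc)) (p : K[X])
    (hp : p.natDegree ≤ b (Fin.last t)) : u * aeval (X (Fin.last t)) p ∈ P K X b := by
  unfold P at hu
  induction hu using Submodule.span_induction with
  | mem u hu =>
    obtain ⟨s, hs, rfl⟩ := hu
    rw [aeval_eq_sum_range, Finset.mul_sum]
    refine Submodule.sum_mem _ fun n hn => ?_
    rw [mul_smul_comm]
    refine Submodule.smul_mem _ _ ?_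
    have h1 : (∏ j : Fin t, X j.castSucc ^ s j) * X (Fin.last t) ^ n =
        ∏ j : Fin (t + 1), X j ^ (Fin.snoc (α := fun _ => ℕ) s n : Fin (t + 1) → ℕ) j := by
      rw [Fin.prod_univ_castSucc]
      simp
    rw [h1]
    refine mon_mem _ fun j => ?_
    refine Fin.lastCases ?_ (fun j => ?_) j
    · rw [Fin.snoc_last]
      rw [Finset.mem_range] at hn
      omega
    · rw [Fin.snoc_castSucc]
      exact hs j
  | zero => rw [zero_mul]; exact Submodule.zero_mem _
  | add x y _ _ hx hy => rw [add_mul]; exact Submodule.add_mem _ hx hy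
  | smul r x _ hx => rw [smul_mul_assoc]; exact Submodule.smul_mem _ _ hx

/-- the multiples of the products -/
noncomputable def Rel {t : ℕ} (X : Fin t → A) (f : I → Fin t → K[X]) (b : Fin t → ℕ)
    (T : Finset I) : Submodule K A :=
  T.sup fun i => (P K X b).map (LinearMap.mulLeft K (∏ j, aeval (X j) (f i j)))

omit [DecidableEq I] in
theorem mem_Rel {t : ℕ} {X : Fin t → A} {f : I → Fin t → K[X]} {b : Fin t → ℕ}
    {T : Finset I} {i : I} (hi : i ∈ T) {u : A} (hu : u ∈ P K X b) :
    (∏ j, aeval (X j) (f i j)) * u ∈ Rel X f b T := by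
  have h : (P K X b).map (LinearMap.mulLeft K (∏ j, aeval (X j) (f i j))) ≤ Rel X f b T :=
    Finset.le_sup (f := fun i => (P K X b).map
      (LinearMap.mulLeft K (∏ j, aeval (X j) (f i j)))) hi
  exact h ⟨u, hu, rfl⟩

omit [DecidableEq I] in
theorem Rel_le_of {t : ℕ} {X : Fin t → A} {f : I → Fin t → K[X]} {b : Fin t → ℕ}
    {T : Finset I} {M : Submodule K A}
    (h : ∀ i ∈ T, ∀ u ∈ P K X b, (∏ j, aeval (X j) (f i j)) * u ∈ M) : Rel X f b T ≤ M := by
  refine Finset.sup_le fun i hi => ?_
  rintro _ ⟨u, hu, rfl⟩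
  exact h i hi u hu

theorem key (k : ℕ) (hk : 1 ≤ k) (t : ℕ) : ∀ (X : Fin t → A) (T : Finset I)
    (f : I → Fin t → K[X]) (a : Fin t → ℕ), T.card = t + 1 →
    (∀ i ∈ T, ∀ j, (f i j).Monic) → (∀ i ∈ T, ∀ j, (f i j).natDegree = k) →
    (∀ i ∈ T, ∀ i' ∈ T, i ≠ i' → ∀ j, IsCoprime (f i j) (f i' j)) →
    (∀ j : Fin t, ((j : ℕ) + 2) * k ≤ a j + 1) →
    P K X a ≤ Rel X f (fun j => a j - k) T := by
  induction t with
  | zero =>
    intro X T f a hT hm hd hc ha
    obtain ⟨i, hi⟩ : T.Nonempty := Finset.card_pos.1 (by omega)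
    intro u hu
    have h1 : (fun j : Fin 0 => a j - k) = a := funext fun j => j.elim0
    have h2 := mem_Rel (X := X) (f := f) (b := fun j => a j - k) hi (u := u) (by rw [h1]; exact hu)
    simpa using h2
  | succ t ih =>
    intro X T f a hT hm hd hc ha
    have halast : (t + 2) * k ≤ a (Fin.last t) + 1 := by
      have := ha (Fin.last t)
      simpa using this
    have hkt : (t + 1) * k + k = (t + 2) * k := by ring
    unfold P
    rw [Submodule.span_le]
    rintro _ ⟨s, hs, rfl⟩
    obtain ⟨c, hcdeg, hceq⟩ := pf T (fun i => f i (Fin.last t)) k t hk (by omega)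
      (fun i hi => hm i hi _) (fun i hi => hd i hi _)
      (fun i hi i' hi' hne => hc i hi i' hi' hne _) (a (Fin.last t)) halast
      ((Polynomial.X : K[X]) ^ s (Fin.last t)) (by rw [natDegree_X_pow]; exact hs _)
    -- the monomial
    have hmon : ∏ j, X j ^ s j = ∑ i₀ ∈ T, (∏ j : Fin t, X j.castSucc ^ s j.castSucc) *
        aeval (X (Fin.last t)) (c i₀ * ∏ i ∈ T.erase i₀, f i (Fin.last t)) := by
      rw [Fin.prod_univ_castSucc, ← Finset.mul_sum, ← map_sum, ← hceq, map_pow, aeval_X]
    rw [hmon]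
    refine Submodule.sum_mem _ fun i₀ hi₀ => ?_
    have hcard : (T.erase i₀).card = t + 1 := by
      rw [Finset.card_erase_of_mem hi₀]; omega
    have hI := ih (fun j => X j.castSucc) (T.erase i₀) (fun i j => f i j.castSucc)
      (fun j => a j.castSucc) hcard (fun i hi j => hm i (Finset.mem_of_mem_erase hi) _)
      (fun i hi j => hd i (Finset.mem_of_mem_erase hi) _)
      (fun i hi i' hi' hne j => hc i (Finset.mem_of_mem_erase hi) i'
        (Finset.mem_of_mem_erase hi') hne _)
      (fun j => by
        have := ha j.castSucc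
        simpa using this)
    have hg : ∏ j : Fin t, X j.castSucc ^ s j.castSucc ∈
        P K (fun j : Fin t => X j.castSucc) (fun j => a j.castSucc) :=
      mon_mem (X := fun j : Fin t => X j.castSucc) (fun j => s j.castSucc) fun j => hs _
    set w : A := aeval (X (Fin.last t)) (c i₀ * ∏ i ∈ T.erase i₀, f i (Fin.last t)) with hw
    have hle : Rel (fun j : Fin t => X j.castSucc) (fun i j => f i j.castSucc)
        (fun j => a j.castSucc - k) (T.erase i₀) ≤
        (Rel X f (fun j => a j - k) T).comap (LinearMap.mulRight K w) := by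
      refine Rel_le_of fun i hi u hu => ?_
      rw [Submodule.mem_comap, LinearMap.mulRight_apply]
      have hiT := Finset.mem_of_mem_erase hi
      have e1 : w = aeval (X (Fin.last t)) (f i (Fin.last t)) *
          aeval (X (Fin.last t)) (c i₀ * ∏ i' ∈ (T.erase i₀).erase i, f i' (Fin.last t)) := by
        rw [hw, ← map_mul, ← Finset.mul_prod_erase (T.erase i₀) (fun i => f i (Fin.last t)) hi]
        congr 1
        ring
      have e2 : (∏ j : Fin t, aeval (X j.castSucc) (f i j.castSucc)) * u * w =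
          (∏ j : Fin (t + 1), aeval (X j) (f i j)) * (u * aeval (X (Fin.last t))
            (c i₀ * ∏ i' ∈ (T.erase i₀).erase i, f i' (Fin.last t))) := by
        rw [e1, Fin.prod_univ_castSucc]
        ring
      rw [e2]
      refine mem_Rel hiT (mul_mem (b := fun j => a j - k) hu _ ?_)
      refine natDegree_mul_le.trans ?_
      have h1 := hcdeg i₀ hi₀
      have h2 : (∏ i' ∈ (T.erase i₀).erase i, f i' (Fin.last t)).natDegree ≤ t * k := by
        refine (natDegree_prod_le _ _).trans ?_
        rw [Finset.sum_congr rfl (g := fun _ => k) fun i' hi' => hd i'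
          (Finset.mem_of_mem_erase (Finset.mem_of_mem_erase hi')) _]
        rw [Finset.sum_const, Finset.card_erase_of_mem hi, hcard]
        simp
      have h3 : t * k + k = (t + 1) * k := by ring
      omega
    exact hle (hI hg)

end Pool.Agent.H248.ZP
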