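import Pool.Graph.R_pool_sql_team_seeded_1acbe0a2.Y684.ZL.Num

/-!
# The choice of the parameters
-/

set_option autoImplicit false

namespace Pool.Agent.H248.ZP

open Pool.Agent.Y684.ZL

/-- the window length -/
theorem exists_window (A m t : ℕ) (hA : 1 ≤ A) (hm : 1 ≤ m) (ht : A < t) :
    ∃ h : ℕ, 1 ≤ h ∧ A * (h ^ (m + 1) - (h - 1) ^ (m + 1)) < t ∧
      t ≤ A * (m + 1) * 2 ^ m * h ^ m ∧ h ^ m < t := by
  classical
  have hlow : ∀ h, 1 ≤ h → h ^ m ≤ h ^ (m + 1) - (h - 1) ^ (m + 1) := by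
    intro h hh
    obtain ⟨k, rfl⟩ : ∃ k, h = k + 1 := ⟨h - 1, by omega⟩
    have := pow_lower m k
    rw [Nat.add_sub_cancel]
    omega
  set P : ℕ → Prop := fun h => A * (h ^ (m + 1) - (h - 1) ^ (m + 1)) < t with hP
  have hP1 : P 1 := by
    show A * (1 ^ (m + 1) - (1 - 1) ^ (m + 1)) < t
    simpa using ht
  have ht1 : 1 ≤ t := by omega
  set h := Nat.findGreatest P t with hh
  have hPh : P h := Nat.findGreatest_spec ht1 hP1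
  have h1 : 1 ≤ h := Nat.le_findGreatest ht1 hP1
  have hbound : ∀ k, 1 ≤ k → P k → k ^ m < t := by
    intro k hk hPk
    have a1 := hlow k hk
    have a2 : 1 * k ^ m ≤ A * (k ^ (m + 1) - (k - 1) ^ (m + 1)) := Nat.mul_le_mul hA a1
    have a3 : A * (k ^ (m + 1) - (k - 1) ^ (m + 1)) < t := hPk
    omega
  have hht : h < t := by
    have a1 := hbound h h1 hPh
    have a2 : h ^ 1 ≤ h ^ m := Nat.pow_le_pow_right h1 hm
    rw [pow_one] at a2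
    omega
  have hnot : ¬ P (h + 1) := Nat.findGreatest_is_greatest (Nat.lt_succ_self _) hht
  refine ⟨h, h1, hPh, ?_, hbound h h1 hPh⟩
  have b1 : t ≤ A * ((h + 1) ^ (m + 1) - h ^ (m + 1)) := by
    by_contra hc
    apply hnot
    show A * ((h + 1) ^ (m + 1) - (h + 1 - 1) ^ (m + 1)) < t
    rw [Nat.add_sub_cancel]
    omega
  have b2 : (h + 1) ^ (m + 1) - h ^ (m + 1) ≤ (m + 1) * (h + 1) ^ m := by
    have := pow_upper h m
    omega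
  have b3 : (h + 1) ^ m ≤ (2 * h) ^ m := Nat.pow_le_pow_left (by omega) m
  calc t ≤ A * ((h + 1) ^ (m + 1) - h ^ (m + 1)) := b1
    _ ≤ A * ((m + 1) * (2 * h) ^ m) :=
        Nat.mul_le_mul_left _ (b2.trans (Nat.mul_le_mul_left _ b3))
    _ = _ := by rw [mul_pow]; ring

/-- the size of the field -/
theorem exists_params (r k t n : ℕ) (hr : 1 ≤ r) (hk : 1 ≤ k) (ht : r.factorial * k ^ r < t)
    (hn : 2 ^ (r + 3) * (2 * k) ^ (r + 1) * (3 * 4 ^ r) * t ≤ n) :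
    ∃ h l : ℕ, 1 ≤ h ∧ 2 ≤ l ∧ h ≤ 2 ^ l - 1 ∧ 2 * k ≤ (2 ^ l) ^ r ∧
      (r.factorial * k ^ r) * (h ^ (r + 1) - (h - 1) ^ (r + 1)) < t ∧
      t ≤ r.factorial * k ^ r * (r + 1) * 2 ^ r * h ^ r ∧
      h * n ≤ 2 ^ (r + 3) * (2 ^ l) ^ (r + 1) ∧
      2 ^ (r * l) * ((2 ^ l - 1) / h + 1) ≤ n := by
  obtain ⟨h, h1, h2, h3, h4⟩ := exists_window (r.factorial * k ^ r) r t
    (Nat.mul_pos (Nat.factorial_pos r) (pow_pos hk r)) hr ht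
  have ht1 : 1 ≤ t := by omega
  have hk2 : 1 ≤ (2 * k) ^ (r + 1) := Nat.one_le_pow _ _ (by omega)
  have h4r : 1 ≤ 4 ^ r := Nat.one_le_pow _ _ (by norm_num)
  have h2r : 2 ^ r ≤ 4 ^ r := Nat.pow_le_pow_left (by norm_num) r
  have h2r3 : 8 ≤ 2 ^ (r + 3) := by
    calc 8 = 2 ^ 3 := by norm_num
      _ ≤ 2 ^ (r + 3) := Nat.pow_le_pow_right (by norm_num) (by omega)
  -- lower bounds for `n`
  have hn1 : 8 * (3 * 4 ^ r) * t ≤ n := by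
    refine le_trans ?_ hn
    calc 8 * (3 * 4 ^ r) * t = 8 * 1 * (3 * 4 ^ r) * t := by ring
      _ ≤ 2 ^ (r + 3) * (2 * k) ^ (r + 1) * (3 * 4 ^ r) * t := by gcongr
  have hn2 : 2 ^ (r + 3) * (2 * k) ^ (r + 1) * 3 ≤ n := by
    refine le_trans ?_ hn
    calc 2 ^ (r + 3) * (2 * k) ^ (r + 1) * 3 =
          2 ^ (r + 3) * (2 * k) ^ (r + 1) * (3 * 1) * 1 := by ring
      _ ≤ 2 ^ (r + 3) * (2 * k) ^ (r + 1) * (3 * 4 ^ r) * t := by gcongr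
  have h4t : 4 ^ r * 1 ≤ 4 ^ r * t := Nat.mul_le_mul_left _ ht1
  have h5 : 3 * 4 ^ r ≤ n / 2 := by
    have e : 8 * (3 * 4 ^ r) * t = 24 * (4 ^ r * t) := by ring
    omega
  have h6 : 2 ^ r * h ^ r ≤ n / 2 := by
    have a1 : 2 ^ r * h ^ r ≤ 4 ^ r * t := Nat.mul_le_mul h2r h4.le
    have e : 8 * (3 * 4 ^ r) * t = 24 * (4 ^ r * t) := by ring
    omega
  obtain ⟨l, hl1, hl2, hl3, hl4⟩ := exists_size r h (n / 2) h1 h5 h6
  have hn4 : n ≤ 4 * (n / 2) := by omega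
  have hhn : h * n ≤ 2 ^ (r + 3) * (2 ^ l) ^ (r + 1) := by
    calc h * n ≤ h * (4 * (n / 2)) := Nat.mul_le_mul_left _ hn4
      _ = 4 * (h * (n / 2)) := by ring
      _ ≤ 4 * (2 ^ (r + 1) * (2 ^ l) ^ (r + 1)) := Nat.mul_le_mul_left _ hl4.le
      _ = 2 ^ (r + 3) * (2 ^ l) ^ (r + 1) := by rw [pow_add 2 r 3, pow_add 2 r 1]; ring
  refine ⟨h, l, h1, hl1, hl2, ?_, h2, h3, hhn, ?_⟩
  · have a1 : 2 ^ (r + 3) * (2 * k) ^ (r + 1) ≤ 2 ^ (r + 3) * (2 ^ l) ^ (r + 1) := by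
      calc 2 ^ (r + 3) * (2 * k) ^ (r + 1) ≤ 2 ^ (r + 3) * (2 * k) ^ (r + 1) * 3 := by omega
        _ ≤ n := hn2
        _ = 1 * n := by ring
        _ ≤ h * n := Nat.mul_le_mul_right _ h1
        _ ≤ _ := hhn
    have a2 : (2 * k) ^ (r + 1) ≤ (2 ^ l) ^ (r + 1) :=
      Nat.le_of_mul_le_mul_left a1 (by positivity)
    have a3 : 2 * k ≤ 2 ^ l := (Nat.pow_le_pow_iff_left (Nat.succ_ne_zero r)).1 a2
    calc 2 * k ≤ 2 ^ l := a3
      _ = (2 ^ l) ^ 1 := (pow_one _).symm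
      _ ≤ (2 ^ l) ^ r := Nat.pow_le_pow_right (by positivity) hr
  · have a1 : 1 ≤ (2 ^ l - 1) / h := (Nat.one_le_div_iff (by omega)).2 hl2
    calc 2 ^ (r * l) * ((2 ^ l - 1) / h + 1) ≤ 2 ^ (r * l) * (2 * ((2 ^ l - 1) / h)) :=
          Nat.mul_le_mul_left _ (by omega)
      _ = 2 * (2 ^ (r * l) * ((2 ^ l - 1) / h)) := by ring
      _ ≤ 2 * (n / 2) := Nat.mul_le_mul_left _ hl3
      _ ≤ n := Nat.mul_div_le n 2

end Pool.Agent.H248.ZP
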