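import Mathlib

/-!
# The final inequality in real numbers
-/

set_option autoImplicit false

namespace Pool.Agent.H248.ZP

theorem numG (r k : ℕ) (hr : 1 ≤ r) (hk : 1 ≤ k) :
    ∃ c : ℝ, 0 < c ∧ ∀ (t n m h q N : ℕ) (z : ℝ), 1 ≤ h → 4 ≤ q → 1 ≤ t → 1 ≤ n → 1 ≤ m →
      2 * k ≤ q ^ r → h ≤ q - 1 →
      t ≤ r.factorial * k ^ r * (r + 1) * 2 ^ r * h ^ r →
      h * n ≤ 2 ^ (r + 3) * q ^ (r + 1) →
      q ^ (r * k) * ((q - 1) / h) ≤ k * N →
      (m : ℝ) ≤ (t : ℝ) ^ (((k : ℝ) - 1) / (r + 1)) * (n : ℝ) ^ (((r : ℝ) * k + 1) / (r + 1)) →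
      ((min m N * (q ^ r - k) : ℕ) : ℝ) ≤ z →
      c * (t : ℝ) ^ (1 / ((r : ℝ) + 1)) * m * (n : ℝ) ^ (1 - 1 / ((r : ℝ) + 1)) ≤ z := by
  obtain ⟨A, hA⟩ : ∃ A : ℝ, A = r.factorial * k ^ r * (r + 1) * 2 ^ r := ⟨_, rfl⟩
  have hA1 : 1 ≤ A := by
    have h1 : 1 ≤ r.factorial * k ^ r * (r + 1) * 2 ^ r := by
      have : 0 < r.factorial * k ^ r * (r + 1) * 2 ^ r := by
        have := r.factorial_pos
        positivity
      exact this
    rw [hA]
    exact_mod_cast h1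
  have hA0 : 0 < A := by linarith
  have hk0 : (0 : ℝ) < k := by exact_mod_cast hk
  have hk1 : (1 : ℝ) ≤ k := by exact_mod_cast hk
  obtain ⟨D, hD⟩ : ∃ D : ℝ, D = A ^ k * 8 ^ (r * k + 1) * (2 * k) := ⟨_, rfl⟩
  have hD1 : 1 ≤ D := by
    have h1 : (1 : ℝ) ≤ A ^ k := one_le_pow₀ hA1
    have h2 : (1 : ℝ) ≤ 8 ^ (r * k + 1) := one_le_pow₀ (by norm_num)
    have h3 : (1 : ℝ) ≤ 2 * k := by linarith
    rw [hD]
    exact one_le_mul_of_one_le_of_one_le (one_le_mul_of_one_le_of_one_le h1 h2) h3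
  have hD0 : 0 < D := by linarith
  refine ⟨1 / D / (A * 8 ^ r * 2), by positivity, ?_⟩
  intro t n m h q N z hh hq ht hn hm hkq hhq htA hhn hN hmt hz
  obtain ⟨S, hS⟩ : ∃ S : ℝ, S = (r : ℝ) + 1 := ⟨_, rfl⟩
  have hr0 : (0 : ℝ) ≤ r := Nat.cast_nonneg r
  have hS0 : 0 < S := by rw [hS]; positivity
  have hS1 : 1 ≤ S := by rw [hS]; linarith
  rw [← hS] at hmt ⊢
  have hh0 : (0 : ℝ) < h := by exact_mod_cast hh
  have hn0 : (0 : ℝ) < n := by exact_mod_cast hn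
  have ht0 : (0 : ℝ) < t := by exact_mod_cast ht
  have hm0 : (0 : ℝ) < m := by exact_mod_cast hm
  have hq0 : (0 : ℝ) < q := by
    have : 0 < q := by omega
    exact_mod_cast this
  -- `x = (h n) ^ (1 / S) ≤ 8 q`
  obtain ⟨x, hx⟩ : ∃ x : ℝ, x = ((h : ℝ) * n) ^ (1 / S) := ⟨_, rfl⟩
  have hx0 : 0 < x := by rw [hx]; positivity
  have hx8 : x ≤ 8 * q := by
    have h1 : (h : ℝ) * n ≤ 2 ^ (r + 3) * (q : ℝ) ^ (r + 1) := by exact_mod_cast hhn
    have h2 : (2 : ℝ) ^ (r + 3) ≤ 8 ^ (r + 1) := by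
      have : (8 : ℝ) = 2 ^ 3 := by norm_num
      rw [this, ← pow_mul]
      exact pow_le_pow_right₀ (by norm_num) (by omega)
    have h3 : (h : ℝ) * n ≤ (8 * q) ^ (r + 1) := by
      rw [mul_pow]
      exact h1.trans (mul_le_mul_of_nonneg_right h2 (by positivity))
    have h4 : ((8 * q : ℝ) ^ (r + 1)) ^ (1 / S) = 8 * q := by
      rw [← Real.rpow_natCast, ← Real.rpow_mul (by positivity)]
      have : ((r + 1 : ℕ) : ℝ) * (1 / S) = 1 := by
        rw [hS]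
        push_cast
        field_simp
      rw [this, Real.rpow_one]
    rw [hx, ← h4]
    exact Real.rpow_le_rpow (by positivity) h3 (by positivity)
  have hxp : ∀ j : ℕ, ((h : ℝ) * n) ^ ((j : ℝ) / S) = x ^ j := by
    intro j
    rw [hx, ← Real.rpow_natCast, ← Real.rpow_mul (by positivity)]
    congr 1
    ring
  have htA' : (t : ℝ) ≤ A * (h : ℝ) ^ r := by
    rw [hA]
    exact_mod_cast htA
  -- first estimate
  have e1 : (m : ℝ) * h ≤ A ^ k * x ^ (r * k + 1) := by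
    have hex : 0 ≤ ((k : ℝ) - 1) / S := div_nonneg (by linarith) hS0.le
    have h1 : (t : ℝ) ^ (((k : ℝ) - 1) / S) ≤ A ^ k * ((h : ℝ) ^ r) ^ (((k : ℝ) - 1) / S) := by
      calc _ ≤ (A * (h : ℝ) ^ r) ^ (((k : ℝ) - 1) / S) :=
            Real.rpow_le_rpow ht0.le htA' hex
        _ = A ^ (((k : ℝ) - 1) / S) * ((h : ℝ) ^ r) ^ (((k : ℝ) - 1) / S) :=
            Real.mul_rpow hA0.le (by positivity)
        _ ≤ A ^ (k : ℝ) * ((h : ℝ) ^ r) ^ (((k : ℝ) - 1) / S) := by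
            refine mul_le_mul_of_nonneg_right ?_ (by positivity)
            refine Real.rpow_le_rpow_of_exponent_le hA1 ?_
            rw [div_le_iff₀ hS0]
            nlinarith
        _ = _ := by rw [Real.rpow_natCast]
    have h2 : ((h : ℝ) ^ r) ^ (((k : ℝ) - 1) / S) * h = (h : ℝ) ^ (((r : ℝ) * k + 1) / S) := by
      rw [← Real.rpow_natCast (h : ℝ) r, ← Real.rpow_mul hh0.le]
      nth_rewrite 2 [← Real.rpow_one (h : ℝ)]
      rw [← Real.rpow_add hh0]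
      congr 1
      field_simp
      rw [hS]
      ring
    have h3 : (h : ℝ) ^ (((r : ℝ) * k + 1) / S) * (n : ℝ) ^ (((r : ℝ) * k + 1) / S) =
        x ^ (r * k + 1) := by
      rw [← Real.mul_rpow hh0.le hn0.le, ← hxp]
      push_cast
      rfl
    calc (m : ℝ) * h ≤ ((t : ℝ) ^ (((k : ℝ) - 1) / S) * (n : ℝ) ^ (((r : ℝ) * k + 1) / S)) * h :=
          mul_le_mul_of_nonneg_right hmt hh0.le
      _ ≤ ((A ^ k * ((h : ℝ) ^ r) ^ (((k : ℝ) - 1) / S)) * (n : ℝ) ^ (((r : ℝ) * k + 1) / S)) * h := by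
          gcongr
      _ = A ^ k * ((((h : ℝ) ^ r) ^ (((k : ℝ) - 1) / S) * h) * (n : ℝ) ^ (((r : ℝ) * k + 1) / S)) := by
          ring
      _ = A ^ k * x ^ (r * k + 1) := by rw [h2, h3]
  have e2 : (q : ℝ) ^ (r * k + 1) ≤ 2 * h * k * N := by
    have h1 : q ≤ 2 * h * ((q - 1) / h) := by
      have h2 : 1 ≤ (q - 1) / h := (Nat.one_le_div_iff (by omega)).2 hhq
      have h3 : q - 1 < h * ((q - 1) / h + 1) := Nat.lt_mul_div_succ _ (by omega)
      have h4 : h * ((q - 1) / h + 1) = h * ((q - 1) / h) + h := by ring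
      have h5 : h ≤ h * ((q - 1) / h) := Nat.le_mul_of_pos_right h (by omega)
      have h6 : 2 * h * ((q - 1) / h) = h * ((q - 1) / h) + h * ((q - 1) / h) := by ring
      omega
    have h2 : q ^ (r * k + 1) ≤ 2 * h * (k * N) := by
      calc q ^ (r * k + 1) = q ^ (r * k) * q := pow_succ _ _
        _ ≤ q ^ (r * k) * (2 * h * ((q - 1) / h)) := Nat.mul_le_mul_left _ h1
        _ = 2 * h * (q ^ (r * k) * ((q - 1) / h)) := by ring
        _ ≤ 2 * h * (k * N) := Nat.mul_le_mul_left _ hN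
    have h3 : ((q ^ (r * k + 1) : ℕ) : ℝ) ≤ ((2 * h * (k * N) : ℕ) : ℝ) := by exact_mod_cast h2
    push_cast at h3
    linarith
  have e3 : (m : ℝ) ≤ D * N := by
    have h1 : (m : ℝ) * h ≤ (D * N) * h := by
      calc (m : ℝ) * h ≤ A ^ k * x ^ (r * k + 1) := e1
        _ ≤ A ^ k * (8 * q) ^ (r * k + 1) := by gcongr
        _ = A ^ k * 8 ^ (r * k + 1) * (q : ℝ) ^ (r * k + 1) := by rw [mul_pow]; ring
        _ ≤ A ^ k * 8 ^ (r * k + 1) * (2 * h * k * N) :=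
            mul_le_mul_of_nonneg_left e2 (by positivity)
        _ = (D * N) * h := by rw [hD]; ring
    exact le_of_mul_le_mul_right h1 hh0
  -- second estimate
  have e4 : (t : ℝ) ^ (1 / S) * (n : ℝ) ^ (1 - 1 / S) ≤ A * 8 ^ r * (q : ℝ) ^ r := by
    have h1 : (t : ℝ) ^ (1 / S) ≤ A * ((h : ℝ) ^ r) ^ (1 / S) := by
      calc _ ≤ (A * (h : ℝ) ^ r) ^ (1 / S) := Real.rpow_le_rpow ht0.le htA' (by positivity)
        _ = A ^ (1 / S) * ((h : ℝ) ^ r) ^ (1 / S) := Real.mul_rpow hA0.le (by positivity)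
        _ ≤ A ^ (1 : ℝ) * ((h : ℝ) ^ r) ^ (1 / S) := by
            refine mul_le_mul_of_nonneg_right ?_ (by positivity)
            refine Real.rpow_le_rpow_of_exponent_le hA1 ?_
            rw [div_le_iff₀ hS0]
            linarith
        _ = _ := by rw [Real.rpow_one]
    have h2 : ((h : ℝ) ^ r) ^ (1 / S) = (h : ℝ) ^ ((r : ℝ) / S) := by
      rw [← Real.rpow_natCast (h : ℝ) r, ← Real.rpow_mul hh0.le]
      congr 1
      ring
    have h3 : 1 - 1 / S = (r : ℝ) / S := by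
      field_simp
      rw [hS]
      ring
    calc _ ≤ (A * ((h : ℝ) ^ r) ^ (1 / S)) * (n : ℝ) ^ (1 - 1 / S) :=
          mul_le_mul_of_nonneg_right h1 (by positivity)
      _ = A * ((h : ℝ) ^ ((r : ℝ) / S) * (n : ℝ) ^ ((r : ℝ) / S)) := by rw [h2, h3]; ring
      _ = A * x ^ r := by rw [← Real.mul_rpow hh0.le hn0.le, hxp]
      _ ≤ A * (8 * q) ^ r := by gcongr
      _ = _ := by rw [mul_pow]; ring
  have hkq' : k ≤ q ^ r := by omega
  have e5 : (q : ℝ) ^ r ≤ 2 * ((q ^ r - k : ℕ) : ℝ) := by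
    have h1 : q ^ r ≤ 2 * (q ^ r - k) := by omega
    exact_mod_cast h1
  have e6 : 1 / D * m ≤ ((min m N : ℕ) : ℝ) := by
    rw [Nat.cast_min, one_div, inv_mul_eq_div]
    refine le_min ?_ ?_
    · exact div_le_self hm0.le hD1
    · rw [div_le_iff₀ hD0]
      linarith
  have e7 : (t : ℝ) ^ (1 / S) * (n : ℝ) ^ (1 - 1 / S) / (A * 8 ^ r * 2) ≤
      ((q ^ r - k : ℕ) : ℝ) := by
    rw [div_le_iff₀ (by positivity)]
    calc _ ≤ A * 8 ^ r * (q : ℝ) ^ r := e4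
      _ ≤ A * 8 ^ r * (2 * ((q ^ r - k : ℕ) : ℝ)) := mul_le_mul_of_nonneg_left e5 (by positivity)
      _ = _ := by ring
  calc 1 / D / (A * 8 ^ r * 2) * (t : ℝ) ^ (1 / S) * m * (n : ℝ) ^ (1 - 1 / S) =
      (1 / D * m) * ((t : ℝ) ^ (1 / S) * (n : ℝ) ^ (1 - 1 / S) / (A * 8 ^ r * 2)) := by ring
    _ ≤ ((min m N : ℕ) : ℝ) * ((q ^ r - k : ℕ) : ℝ) :=
        mul_le_mul e6 e7 (by positivity) (Nat.cast_nonneg _)
    _ = ((min m N * (q ^ r - k) : ℕ) : ℝ) := by rw [Nat.cast_mul]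
    _ ≤ z := hz

end Pool.Agent.H248.ZP
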