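import Pool.Agent.H248.ZP.Graph
import Pool.Agent.H248.ZP.Transfer
import Pool.Agent.H248.ZP.Num
import Pool.Agent.H248.ZP.NumG
import Pool.Agent.H248.ZP.Nec
import Pool.Agent.H248.ZP.Upper

/-!
# The lower bound
-/

set_option autoImplicit false

namespace Pool.Agent.H248.ZP

open Finset

/-- `t - 1` full columns -/
theorem columns (s t m n : ℕ) (hs : 1 ≤ s) (ht : 1 ≤ t) (htn : t ≤ n) :
    ∃ E : Finset (Fin m × Fin n),
      (∀ (A : Finset (Fin m)) (B : Finset (Fin n)), A.card = s → B.card = t →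
        ∃ a ∈ A, ∃ b ∈ B, (a, b) ∉ E) ∧ E.card = m * (t - 1) := by
  classical
  refine ⟨Finset.univ ×ˢ (Finset.univ.filter fun b : Fin n => (b : ℕ) < t - 1), ?_, ?_⟩
  · intro A B hA hB
    obtain ⟨a, ha⟩ : A.Nonempty := Finset.card_pos.1 (by omega)
    refine ⟨a, ha, ?_⟩
    by_contra hcon
    push Not at hcon
    have h1 : B ⊆ Finset.univ.filter fun b : Fin n => (b : ℕ) < t - 1 := by
      intro b hb
      exact (Finset.mem_product.1 (hcon b hb)).2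
    have h2 := Finset.card_le_card h1
    have h3 : (Finset.univ.filter fun b : Fin n => (b : ℕ) < t - 1).card ≤ t - 1 := by
      have h4 : ((Finset.univ.filter fun b : Fin n => (b : ℕ) < t - 1).image
          (fun b : Fin n => (b : ℕ))) ⊆ Finset.range (t - 1) := by
        intro x hx
        obtain ⟨b, hb, rfl⟩ := Finset.mem_image.1 hx
        exact Finset.mem_range.2 (Finset.mem_filter.1 hb).2
      have h5 := Finset.card_le_card h4
      rwa [Finset.card_range, Finset.card_image_of_injective _ Fin.val_injective] at h5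
    omega
  · rw [Finset.card_product, Finset.card_univ, Fintype.card_fin]
    congr 1
    have h4 : (Finset.univ.filter fun b : Fin n => (b : ℕ) < t - 1).map Fin.valEmbedding =
        Finset.range (t - 1) := by
      ext x
      rw [Finset.mem_map, Finset.mem_range]
      constructor
      · rintro ⟨b, hb, rfl⟩
        exact (Finset.mem_filter.1 hb).2
      · intro hx
        exact ⟨⟨x, by omega⟩, Finset.mem_filter.2 ⟨Finset.mem_univ _, hx⟩, rfl⟩
    rw [← Finset.card_map Fin.valEmbedding, h4, Finset.card_range]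

theorem lower (r k : ℕ) (hr : 1 ≤ r) (hk : 1 ≤ k) :
    ∃ c : ℝ, 0 < c ∧ ∀ t n m : ℕ, r.factorial * k ^ r < t → t ≤ n → 1 ≤ m →
      (m : ℝ) ≤ (t : ℝ) ^ (((k : ℝ) - 1) / (r + 1)) * (n : ℝ) ^ (((r : ℝ) * k + 1) / (r + 1)) →
      ∃ E : Finset (Fin m × Fin n),
        (∀ (A : Finset (Fin m)) (B : Finset (Fin n)), A.card = r + 1 → B.card = t →
          ∃ a ∈ A, ∃ b ∈ B, (a, b) ∉ E) ∧
        c * (t : ℝ) ^ (1 / ((r : ℝ) + 1)) * m * (n : ℝ) ^ (1 - 1 / ((r : ℝ) + 1)) ≤ E.card := by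
  classical
  obtain ⟨c₁, hc₁, hmain⟩ := numG r k hr hk
  obtain ⟨C₁, hC₁⟩ : ∃ C₁ : ℕ, C₁ = 2 ^ (r + 3) * (2 * k) ^ (r + 1) * (3 * 4 ^ r) := ⟨_, rfl⟩
  have hC₁1 : 1 ≤ C₁ := by
    rw [hC₁]
    have : 0 < 2 ^ (r + 3) * (2 * k) ^ (r + 1) * (3 * 4 ^ r) := by positivity
    exact this
  have hC₁R : (1 : ℝ) ≤ C₁ := by exact_mod_cast hC₁1
  refine ⟨min c₁ (1 / (2 * C₁)), lt_min hc₁ (by positivity), ?_⟩
  intro t n m ht htn hm hmn
  have hf : 1 ≤ r.factorial * k ^ r := Nat.mul_pos (Nat.factorial_pos r) (pow_pos hk r)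
  have ht2 : 2 ≤ t := by omega
  have htR : (0 : ℝ) < t := by exact_mod_cast (by omega : 0 < t)
  have hnR : (0 : ℝ) < n := by exact_mod_cast (by omega : 0 < n)
  have hmR : (0 : ℝ) < m := by exact_mod_cast hm
  have hs0 : (0 : ℝ) < (r : ℝ) + 1 := by positivity
  set X : ℝ := (t : ℝ) ^ (1 / ((r : ℝ) + 1)) * m * (n : ℝ) ^ (1 - 1 / ((r : ℝ) + 1)) with hX
  have hX0 : 0 < X := by rw [hX]; positivity
  have hα0 : (0 : ℝ) ≤ 1 - 1 / ((r : ℝ) + 1) := by
    rw [sub_nonneg, div_le_one hs0]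
    have : (0 : ℝ) ≤ r := Nat.cast_nonneg r
    linarith
  have hα1 : (1 : ℝ) - 1 / ((r : ℝ) + 1) ≤ 1 := by
    have : (0 : ℝ) ≤ 1 / ((r : ℝ) + 1) := by positivity
    linarith
  by_cases hsmall : n < C₁ * t
  · obtain ⟨E, hE1, hE2⟩ := columns (r + 1) t m n (by omega) (by omega) htn
    refine ⟨E, hE1, ?_⟩
    have h1 : (n : ℝ) ^ (1 - 1 / ((r : ℝ) + 1)) ≤
        C₁ * (t : ℝ) ^ (1 - 1 / ((r : ℝ) + 1)) := by
      have h2 : (n : ℝ) ≤ C₁ * t := by exact_mod_cast hsmall.le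
      refine (Real.rpow_le_rpow hnR.le h2 hα0).trans ?_
      rw [Real.mul_rpow (by positivity) htR.le]
      apply mul_le_mul_of_nonneg_right _ (by positivity)
      calc (C₁ : ℝ) ^ (1 - 1 / ((r : ℝ) + 1)) ≤ (C₁ : ℝ) ^ (1 : ℝ) :=
            Real.rpow_le_rpow_of_exponent_le hC₁R hα1
        _ = C₁ := Real.rpow_one _
    have h3 : (t : ℝ) ^ (1 / ((r : ℝ) + 1)) * (t : ℝ) ^ (1 - 1 / ((r : ℝ) + 1)) = t := by
      rw [← Real.rpow_add htR]
      have : 1 / ((r : ℝ) + 1) + (1 - 1 / ((r : ℝ) + 1)) = 1 := by ring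
      rw [this, Real.rpow_one]
    have h4 : X ≤ C₁ * (m * t) := by
      calc X ≤ (t : ℝ) ^ (1 / ((r : ℝ) + 1)) * m * (C₁ * (t : ℝ) ^ (1 - 1 / ((r : ℝ) + 1))) := by
            rw [hX]
            exact mul_le_mul_of_nonneg_left h1 (by positivity)
        _ = C₁ * (m * ((t : ℝ) ^ (1 / ((r : ℝ) + 1)) * (t : ℝ) ^ (1 - 1 / ((r : ℝ) + 1)))) := by
            ring
        _ = _ := by rw [h3]
    have h5 : (t : ℝ) ≤ 2 * ((t - 1 : ℕ) : ℝ) := by
      have : t ≤ 2 * (t - 1) := by omega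
      exact_mod_cast this
    have h6 : min c₁ (1 / (2 * C₁)) * X ≤ 1 / (2 * C₁) * (C₁ * (m * t)) :=
      mul_le_mul (min_le_right _ _) h4 hX0.le (by positivity)
    have h7 : 1 / (2 * (C₁ : ℝ)) * (C₁ * (m * t)) = m * t / 2 := by
      field_simp
    rw [hE2]
    push_cast
    have h8 : (m : ℝ) * t / 2 ≤ m * ((t - 1 : ℕ) : ℝ) := by nlinarith
    calc min c₁ (1 / (2 * (C₁ : ℝ))) * (t : ℝ) ^ (1 / ((r : ℝ) + 1)) * m *
          (n : ℝ) ^ (1 - 1 / ((r : ℝ) + 1)) = min c₁ (1 / (2 * (C₁ : ℝ))) * X := by rw [hX]; ring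
      _ ≤ _ := h6
      _ = m * t / 2 := h7
      _ ≤ _ := h8
  · rw [not_lt, hC₁] at hsmall
    obtain ⟨h, l, p1, p2, p3, p4, p5, p6, p7, p8⟩ := exists_params r k t n hr hk ht hsmall
    obtain ⟨V, W, _, _, _, _, D, q1, q2, q3, q4⟩ := exists_family r k l h hr hk p2 p1
    have hql : (2 : ℕ) ^ (r * l) = (2 ^ l) ^ r := by rw [← pow_mul, mul_comm]
    obtain ⟨E, hE1, hE2⟩ := transfer D (r + 1) t m n (2 ^ (r * l) - k) (by omega) (by omega)
      (by rw [q1]; exact p8) (fun v => by have := q3 v; omega)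
      (fun A hA => lt_of_le_of_lt (q4 A hA) p5)
    refine ⟨E, hE1, ?_⟩
    have hq4 : 4 ≤ 2 ^ l := by
      calc 4 = 2 ^ 2 := by norm_num
        _ ≤ 2 ^ l := Nat.pow_le_pow_right (by norm_num) p2
    have := hmain t n m h (2 ^ l) (Fintype.card V) E.card p1 hq4 (by omega) (by omega) hm p4 p3 p6
      p7 (by rw [pow_mul, ← hql]; exact q2) hmn (by rw [← hql]; exact_mod_cast hE2)
    refine le_trans ?_ this
    have h1 : min c₁ (1 / (2 * (C₁ : ℝ))) * X ≤ c₁ * X :=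
      mul_le_mul_of_nonneg_right (min_le_left _ _) hX0.le
    calc min c₁ (1 / (2 * (C₁ : ℝ))) * (t : ℝ) ^ (1 / ((r : ℝ) + 1)) * m *
          (n : ℝ) ^ (1 - 1 / ((r : ℝ) + 1)) = min c₁ (1 / (2 * (C₁ : ℝ))) * X := by rw [hX]; ring
      _ ≤ c₁ * X := h1
      _ = _ := by rw [hX]; ring

end Pool.Agent.H248.ZP
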