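import Pool.Agent.H248.ZP.Key

/-!
# Systems of norm equations for polynomials: the number of solutions
-/

set_option autoImplicit false

namespace Pool.Agent.H248.ZP

open Finset Module Polynomial

section dim

variable {K A : Type*} [Field K] [CommRing A] [Algebra K A] {t : ℕ}

open Classical in
/-- the exponents -/
theorem P_eq_span (X : Fin t → A) (a : Fin t → ℕ) :
    P K X a = Submodule.span K
      (((Fintype.piFinset fun j => Finset.range (a j + 1)).image
        (fun s : Fin t → ℕ => ∏ j, X j ^ s j) : Finset A) : Set A) := by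
  unfold P
  congr 1
  ext f
  simp only [Finset.coe_image, Set.mem_image, Finset.mem_coe,
    Fintype.mem_piFinset, Finset.mem_range]
  constructor
  · rintro ⟨s, hs, rfl⟩
    exact ⟨s, fun j => Nat.lt_succ_of_le (hs j), rfl⟩
  · rintro ⟨s, hs, rfl⟩
    exact ⟨s, fun j => Nat.le_of_lt_succ (hs j), rfl⟩

instance P_fd (X : Fin t → A) (a : Fin t → ℕ) : FiniteDimensional K (P K X a) := by
  classical
  rw [P_eq_span]
  exact FiniteDimensional.span_finset K _

theorem P_finrank (X : Fin t → A) (a : Fin t → ℕ) : finrank K (P K X a) ≤ ∏ j, (a j + 1) := by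
  classical
  rw [P_eq_span]
  refine (finrank_span_finset_le_card _).trans ?_
  refine Finset.card_image_le.trans ?_
  rw [Fintype.card_piFinset]
  simp

end dim

theorem sol_bound {K : Type*} [Field K] {t : ℕ} (ht : 1 ≤ t) (k : ℕ) (hk : 1 ≤ k) (φ : K →+* K)
    (f : Fin (t + 1) → K[X]) (hm : ∀ i, (f i).Monic) (hd : ∀ i, (f i).natDegree = k)
    (hc : ∀ i j, i ≠ j → IsCoprime (f i) (f j)) (a : Fin (t + 1) → K) (b : K → K) (S : Finset K)
    (hS : ∀ s ∈ S, ∀ i, ∏ j : Fin t, φ^[(j : ℕ)] ((f i).eval s) = a i * b s) :
    S.card ≤ t.factorial * k ^ t := by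
  classical
  set X : Fin t → (S → K) := fun j s => φ^[(j : ℕ)] (s : K) with hX
  set F : Fin (t + 1) → Fin t → K[X] := fun i j => (f i).map (φ ^ (j : ℕ)) with hF
  set β : S → K := fun s => b s with hβ
  have hv : ∀ i, ∏ j, aeval (X j) (F i j) = a i • β := by
    intro i
    funext s
    rw [Finset.prod_apply, Pi.smul_apply, smul_eq_mul]
    rw [← hS s s.2 i]
    refine Finset.prod_congr rfl fun j _ => ?_
    rw [aeval_fn_apply]
    show aeval (φ^[(j : ℕ)] (s : K)) ((f i).map (φ ^ (j : ℕ))) = _
    rw [← RingHom.coe_pow, coe_aeval_eq_eval, eval_map, eval₂_at_apply]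
  set e : ℕ → Fin t → ℕ := fun n j => ((j : ℕ) + 1) * k - 1 + n * k with he
  have hstep : ∀ n, finrank K (P K X (e (n + 1))) ≤ finrank K (P K X (e n)) := by
    intro n
    have h1 : P K X (e (n + 1)) ≤ Rel X F (fun j => e (n + 1) j - k) univ := by
      refine key k hk t X univ F (e (n + 1)) (by simp) (fun i _ j => (hm i).map _)
        (fun i _ j => ?_) (fun i _ i' _ hne j => ?_) (fun j => ?_)
      · rw [hF, (hm i).natDegree_map, hd i]
      · exact (hc i i' hne).map (mapRingHom (φ ^ (j : ℕ)))
      · have h2 : ((j : ℕ) + 2) * k = ((j : ℕ) + 1) * k + k := by ring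
        have h3 : 1 * k ≤ ((j : ℕ) + 1) * k := Nat.mul_le_mul_right _ (by omega)
        have h4 : (n + 1) * k = n * k + k := by ring
        simp only [he]
        omega
    have h2 : Rel X F (fun j => e (n + 1) j - k) univ ≤
        (P K X (e n)).map (LinearMap.mulLeft K β) := by
      refine Rel_le_of fun i _ u hu => ?_
      have h3 : (fun j => e (n + 1) j - k) = e n := by
        funext j
        have h4 : (n + 1) * k = n * k + k := by ring
        simp only [he]
        omega
      rw [h3] at hu
      refine ⟨a i • u, Submodule.smul_mem _ _ hu, ?_⟩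
      rw [LinearMap.mulLeft_apply, hv i, mul_smul_comm, smul_mul_assoc]
    exact (Submodule.finrank_mono (h1.trans h2)).trans (Submodule.finrank_map_le _ _)
  have hall : ∀ n, finrank K (P K X (e n)) ≤ finrank K (P K X (e 0)) := by
    intro n
    induction n with
    | zero => exact le_rfl
    | succ n ih => exact (hstep n).trans ih
  have h0 : finrank K (P K X (e 0)) ≤ t.factorial * k ^ t := by
    refine (P_finrank X (e 0)).trans (le_of_eq ?_)
    have h1 : ∀ j : Fin t, e 0 j + 1 = ((j : ℕ) + 1) * k := by
      intro j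
      have h3 : 1 * k ≤ ((j : ℕ) + 1) * k := Nat.mul_le_mul_right _ (by omega)
      simp only [he]
      omega
    rw [Finset.prod_congr rfl fun j _ => h1 j, Finset.prod_mul_distrib, Finset.prod_const,
      Finset.card_univ, Fintype.card_fin, ← Finset.prod_range_add_one_eq_factorial,
      Finset.prod_range]
  -- all functions are polynomials in the first coordinate
  have htop : P K X (e S.card) = ⊤ := by
    rw [eq_top_iff]
    intro g _
    rcases Finset.eq_empty_or_nonempty S with hS0 | hS0
    · have : g = 0 := by
        funext s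
        exact absurd s.2 (Finset.eq_empty_iff_forall_notMem.1 hS0 _)
      rw [this]
      exact Submodule.zero_mem _
    let F' : K → K := fun W => if h : W ∈ S then g ⟨W, h⟩ else 0
    let p := Lagrange.interpolate S id F'
    have hp : ∀ W : S, p.eval (W : K) = g W := by
      intro W
      have := Lagrange.eval_interpolate_at_node (v := id) F' (Set.injOn_id (S : Set K)) W.2
      rw [id] at this
      rw [this]
      simp [F']
    have hdeg : p.degree < S.card := Lagrange.degree_interpolate_lt F' (Set.injOn_id (S : Set K))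
    have hg : g = ∑ n ∈ Finset.range S.card, p.coeff n • (X ⟨0, ht⟩) ^ n := by
      funext W
      rw [← hp W, Polynomial.eval_eq_sum_range' (n := S.card) ?_]
      · rw [Finset.sum_apply]
        refine Finset.sum_congr rfl fun n _ => ?_
        simp [hX]
      · by_cases h0 : p = 0
        · rw [h0, Polynomial.natDegree_zero]; exact Finset.card_pos.2 hS0
        · exact (Polynomial.natDegree_lt_iff_degree_lt h0).2 hdeg
    rw [hg]
    refine Submodule.sum_mem _ fun n hn => Submodule.smul_mem _ _ ?_
    rw [Finset.mem_range] at hn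
    have h1 := mon_mem (K := K) (X := X) (a := e S.card)
      (Pi.single ⟨0, ht⟩ n) (by
        intro j
        have h5 : S.card * 1 ≤ S.card * k := Nat.mul_le_mul_left _ hk
        by_cases hj : j = ⟨0, ht⟩
        · subst hj; rw [Pi.single_eq_same]; simp only [he]; omega
        · rw [Pi.single_eq_of_ne hj]; exact Nat.zero_le _)
    have h2 : ∏ j, X j ^ (Pi.single ⟨0, ht⟩ n : Fin t → ℕ) j = (X ⟨0, ht⟩) ^ n := by
      rw [Finset.prod_eq_single ⟨0, ht⟩]
      · rw [Pi.single_eq_same]
      · intro j _ hj
        rw [Pi.single_eq_of_ne hj, pow_zero]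
      · intro h; exact absurd (Finset.mem_univ _) h
    rwa [h2] at h1
  have h3 := hall S.card
  rw [htop, finrank_top, Module.finrank_fintype_fun_eq_card, Fintype.card_coe] at h3
  exact h3.trans h0

end Pool.Agent.H248.ZP
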